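import Pool.Agent.Lib.MP_c7af3c_ag.MET.Y.SchDefs
import Pool.Agent.Lib.MP_c7af3c_ag.GEN.H26.MainGroups

/-!
# MP_c7af3c_ag, project MET, part Y: module SFINM, arithmetic hyperbolicity (helper81)
-/

set_option autoImplicit false

namespace Pool.Agent.Met.Y.H81

open AlgebraicGeometry CategoryTheory CategoryTheory.Limits
open MvPolynomial (homogeneousSubmodule)
open Pool.Agent.Gen

/-- a section which vanishes at all points has value zero -/
theorem kval_zero_of_basicOpen {k : Type} [Field k] {Y : Scheme.{0}}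
    (y : Spec (CommRingCat.of k) ⟶ Y) (U : Y.Opens) (h : ⊤ ≤ y ⁻¹ᵁ U) (g : Γ(Y, U))
    (hg : Y.basicOpen g = ⊥) : kval y U h g = 0 := by
  by_contra hne
  have h1 := Scheme.basicOpen_appLE y ⊤ U h g
  rw [hg] at h1
  have hu : IsUnit ((y.appLE U ⊤ h).hom g) := by
    have h2 : IsUnit ((Scheme.ΓSpecIso (CommRingCat.of k)).hom.hom ((y.appLE U ⊤ h).hom g)) :=
      (show kval y U h g ≠ 0 from hne).isUnit
    have h3 := h2.map (Scheme.ΓSpecIso (CommRingCat.of k)).inv.hom
    have h4 := congrArg (fun m => m.hom ((y.appLE U ⊤ h).hom g))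
      (Scheme.ΓSpecIso (CommRingCat.of k)).hom_inv_id
    have h5 : (Scheme.ΓSpecIso (CommRingCat.of k)).inv.hom
        ((Scheme.ΓSpecIso (CommRingCat.of k)).hom.hom ((y.appLE U ⊤ h).hom g)) =
        (y.appLE U ⊤ h).hom g := h4
    rwa [h5] at h3
  rw [Scheme.basicOpen_of_isUnit _ hu] at h1
  let pt : ↥(Spec (CommRingCat.of k)) := (⊥ : PrimeSpectrum k)
  have h6 : pt ∈ (⊤ : (Spec (CommRingCat.of k)).Opens) := trivial
  rw [h1] at h6
  exact h6.2

/-- membership in a chart -/
theorem mem_chart {k : Type} [Field k] {r : ℕ} {N : Fin r → ℕ}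
    [∀ i, GradedAlgebra (homogeneousSubmodule (Fin (N i + 1)) k)]
    {X : Scheme.{0}} {f : ∀ i, X ⟶ Proj (homogeneousSubmodule (Fin (N i + 1)) k)}
    {q : ∀ i, Fin (N i + 1)} {x : X} : x ∈ chart N f q ↔ ∀ i, (f i).base x ∈
      Proj.basicOpen (homogeneousSubmodule (Fin (N i + 1)) k) (MvPolynomial.X (q i)) := by
  unfold chart
  rw [← SetLike.mem_coe, TopologicalSpace.Opens.coe_iInf, Set.mem_iInter]
  rfl

/-- the value of a polynomial expression in sections -/
theorem kval_eval₂ {k : Type} [Field k] {J : Type} {Y : Scheme.{0}}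
    (a : Y ⟶ Spec (CommRingCat.of k)) (y : Spec (CommRingCat.of k) ⟶ Y) (hy : y ≫ a = 𝟙 _)
    (U : Y.Opens) (h : ⊤ ≤ y ⁻¹ᵁ U) (v : J → Γ(Y, U)) (q : MvPolynomial J k) :
    kval y U h (MvPolynomial.eval₂ (cstR a U) v q) =
      MvPolynomial.eval (fun j => kval y U h (v j)) q := by
  rw [H96.kval_eq, ← MvPolynomial.eval₂_id, MvPolynomial.hom_eval₂]
  congr 1
  ext c
  exact H17.kval_const y a hy U h c

/-- Module SFINM. -/
theorem sfinM : SfinMStatement := by
  intro k _ r N c E hE X hXft hXqc hX R hR M hsep hlft hqc he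
  obtain ⟨inst, f, hf, hfib, hy⟩ := hX
  obtain ⟨e, he⟩ := he
  have PF := fun i => H38.sproj k (N i)
  choose y hyE using hy
  set p := M.hom with hp
  have hstr : ∀ (s : Spec (CommRingCat.of R) ⟶ M.left) (hs : s ≫ p = 𝟙 _),
      (secPt R p s hs ≫ e.hom) ≫ X.hom = 𝟙 _ := by
    intro s hs
    rw [Category.assoc, he]
    unfold secPt
    rw [pullback.lift_snd]
  -- compactness of the charts
  have hNoeth : TopologicalSpace.NoetherianSpace ↥(pullback p (specIncl R)) := by
    have h1 : IsLocallyNoetherian (pullback p (specIncl R)) := by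
      infer_instance
    have h2 : CompactSpace ↥(pullback p (specIncl R)) :=
      QuasiCompact.compactSpace_of_compactSpace (pullback.snd p (specIncl R))
    have h3 : IsNoetherian (pullback p (specIncl R)) := { h1, h2 with }
    infer_instance
  -- the sections
  have hT : ∀ (q : ∀ i, Fin (N i + 1)) (j : Sg N ⊕ Fin c), ∃ T : Set k, T.Finite ∧
      ∀ (s : Spec (CommRingCat.of R) ⟶ M.left) (hs : s ≫ p = 𝟙 _)
        (h : ⊤ ≤ secPt R p s hs ⁻¹ᵁ (e.hom ⁻¹ᵁ chart N f q)),
        kval (secPt R p s hs) (e.hom ⁻¹ᵁ chart N f q) h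
          ((e.hom.app (chart N f q)).hom (Sum.elim (crd N f q) (y q) j)) ∈
          Subfield.closure (R ∪ T) := fun q j =>
    (H17.spread H96.sfrac H17.stens) k R M.left p (e.hom ⁻¹ᵁ chart N f q)
      (TopologicalSpace.NoetherianSpace.isCompact _) _
  choose T hTfin hTval using hT
  obtain ⟨S0, hS0, hRS⟩ := H81.fg_closure R hR
  set S : Set k := S0 ∪ ⋃ q, ⋃ j, T q j with hS
  have hSfin : S.Finite := hS0.union (Set.finite_iUnion fun q => Set.finite_iUnion fun j =>
    hTfin q j)
  have hRT : ∀ q j, Subfield.closure ((R : Set k) ∪ T q j) ≤ Subfield.closure S := by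
    intro q j
    rw [Subfield.closure_le]
    rintro x (hx | hx)
    · exact Subfield.closure_mono Set.subset_union_left (hRS hx)
    · refine Subfield.subset_closure (Or.inr ?_)
      exact Set.mem_iUnion.2 ⟨q, Set.mem_iUnion.2 ⟨j, hx⟩⟩
  -- sections in the chart `q`
  let A : (∀ i, Fin (N i + 1)) → Set (Spec (CommRingCat.of R) ⟶ M.left) := fun q =>
    {s | ∃ hs : s ≫ p = 𝟙 _, ⊤ ≤ (secPt R p s hs ≫ e.hom) ⁻¹ᵁ chart N f q}
  let pt : ↥(Spec (CommRingCat.of k)) := (⊥ : PrimeSpectrum k)
  have hpt : ∀ x : ↥(Spec (CommRingCat.of k)), x = pt := fun x =>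
    Subsingleton.elim (α := PrimeSpectrum k) _ _
  have hcov : {s : Spec (CommRingCat.of R) ⟶ M.left | s ≫ p = 𝟙 _} ⊆ ⋃ q, A q := by
    intro s hs
    have hs' : s ≫ p = 𝟙 _ := hs
    have h1 := fun i => (PF i).chart ((secPt R p s hs' ≫ e.hom ≫ f i).base pt)
    choose q hq using h1
    refine Set.mem_iUnion.2 ⟨q, hs', ?_⟩
    intro x _
    rw [hpt x]
    change (secPt R p s hs' ≫ e.hom).base pt ∈ chart N f q
    rw [mem_chart]
    intro i
    exact hq i
  refine Set.Finite.subset (Set.finite_iUnion fun q => ?_) hcov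
  have hfin := hE q S hSfin
  have := hfin.to_subtype
  let g : A q → {z : Sg N ⊕ Fin c → k | (∀ j, z j ∈ Subfield.closure S) ∧
      ∀ m ∈ E q, MvPolynomial.eval z m = 0} := fun s =>
    ⟨fun j => kval (secPt R p s.1 s.2.choose ≫ e.hom) (chart N f q) s.2.choose_spec
        (Sum.elim (crd N f q) (y q) j), by
      refine ⟨fun j => ?_, fun m hm => ?_⟩
      · apply hRT q j
        change kval (secPt R p s.1 s.2.choose ≫ e.hom) (chart N f q) s.2.choose_spec
          (Sum.elim (crd N f q) (y q) j) ∈ _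
        rw [H81.kval_comp (secPt R p s.1 s.2.choose) e.hom (chart N f q) s.2.choose_spec
          s.2.choose_spec]
        exact hTval q j s.1 s.2.choose s.2.choose_spec
      · rw [← kval_eval₂ X.hom _ (hstr s.1 s.2.choose)]
        exact kval_zero_of_basicOpen _ _ _ _ (hyE q m hm)⟩
  have hgfib : ∀ v, {s : A q | g s = v}.Finite := by
    intro v
    by_cases hv : ∃ s0 : A q, g s0 = v
    · obtain ⟨s0, rfl⟩ := hv
      have hfib' := hfib (fun i => secPt R p s0.1 s0.2.choose ≫ e.hom ≫ f i)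
      refine Set.Finite.of_finite_image (f := fun s : A q => secPt R p s.1 s.2.choose ≫ e.hom)
        (hfib'.subset ?_) ?_
      · rintro x ⟨s, hs, rfl⟩
        refine ⟨hstr s.1 s.2.choose, fun i => ?_⟩
        have hchart : ∀ s : A q, ⊤ ≤ ((secPt R p s.1 s.2.choose ≫ e.hom) ≫ f i) ⁻¹ᵁ
            Proj.basicOpen (homogeneousSubmodule (Fin (N i + 1)) k) (MvPolynomial.X (q i)) := by
          intro s x _
          have h1 := s.2.choose_spec (show x ∈ (⊤ : (Spec (CommRingCat.of k)).Opens) from trivial)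
          have h2 : (secPt R p s.1 s.2.choose ≫ e.hom).base x ∈ chart N f q := h1
          exact mem_chart.1 h2 i
        have hval : ∀ (s : A q) (l : Fin (N i + 1)),
            pcoord k (N i) (q i) ((secPt R p s.1 s.2.choose ≫ e.hom) ≫ f i) (hchart s) l =
              (g s).1 (Sum.inl ⟨i, l⟩) := by
          intro s l
          unfold pcoord
          rw [H81.kval_comp (secPt R p s.1 s.2.choose ≫ e.hom) (f i) _ (hchart s) (hchart s)]
          exact (H96.kval_res (secPt R p s.1 s.2.choose ≫ e.hom) _ _ (iInf_le _ i)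
            s.2.choose_spec (hchart s) _).symm
        have h3 : (secPt R p s.1 s.2.choose ≫ e.hom) ≫ f i =
            (secPt R p s0.1 s0.2.choose ≫ e.hom) ≫ f i := by
          refine (PF i).inj (q i) _ _ (hchart s) (hchart s0) ?_ ?_ ?_
          · rw [Category.assoc, hf]; exact hstr s.1 s.2.choose
          · rw [Category.assoc, hf]; exact hstr s0.1 s0.2.choose
          · funext l
            rw [hval, hval]
            exact congrArg (fun z => z.1 (Sum.inl ⟨i, l⟩)) hs
        rw [h3, Category.assoc]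
      · intro s _ s' _ hss
        have h4 : secPt R p s.1 s.2.choose = secPt R p s'.1 s'.2.choose :=
          (cancel_mono e.hom).1 hss
        exact Subtype.ext (H38.sinj k R M.left p hsep s.1 s'.1 _ _ h4)
    · refine Set.Finite.subset Set.finite_empty fun s hs => hv ⟨s, hs⟩
  have hAj : (Set.univ : Set (A q)).Finite := by
    refine Set.Finite.of_finite_fibers g ?_ fun v _ => (hgfib v).subset fun s hs => hs.2
    exact Set.toFinite _
  exact Set.finite_coe_iff.1 (Set.finite_univ_iff.1 hAj)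

end Pool.Agent.Met.Y.H81
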